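import Pool.Agent.Helper92.BO.GoalsA

/-!
# The recursion along the flow
-/

namespace Pool.Agent.Helper50.BO

open Pool.Agent.Helper92.BO MeasureTheory

/-- Everything depends only on the bounds on the list. -/
theorem zr_congr (G : SimpleGraph ℕ) (l : ℝ) : ∀ (L : List ℕ) (b b' : ℕ → ℝ),
    (∀ u ∈ L, b u = b' u) → ZR G l L b = ZR G l L b'
  | [], _, _, _ => rfl
  | v :: L, b, b', h => by
    have hv : b v = b' v := h v (by simp)
    have hc : ∀ x : ℝ, ZR G l L (cut G v (1 - x) b) = ZR G l L (cut G v (1 - x) b') := by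
      intro x
      refine zr_congr G l L _ _ ?_
      intro u hu
      have := h u (by simp [hu])
      simp only [cut, this]
    simp only [ZR, hv, hc]

/-- The map `y ↦ y - a * (y * (1 - y))`. -/
theorem mono_aux (a : ℝ) (ha : |a| ≤ 1 / 2) (x y : ℝ) (hx0 : 0 ≤ x) (hxy : x < y) (hy1 : y ≤ 1) :
    x - a * (x * (1 - x)) < y - a * (y * (1 - y)) := by
  have h1 := abs_le.mp ha
  have h2 : (y - a * (y * (1 - y))) - (x - a * (x * (1 - x))) = (y - x) * (1 - a * (1 - (x + y))) := by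
    ring
  have h3 : 0 < 1 - a * (1 - (x + y)) := by
    have h4 : |1 - (x + y)| ≤ 1 := by
      rw [abs_le]
      constructor <;> linarith
    have h5 : |a * (1 - (x + y))| ≤ 1 / 2 := by
      rw [abs_mul]
      calc |a| * |1 - (x + y)| ≤ (1 / 2) * 1 :=
            mul_le_mul ha h4 (abs_nonneg _) (by norm_num)
        _ = 1 / 2 := by norm_num
    have := (abs_le.mp h5).2
    linarith
  have h6 : 0 < (y - x) * (1 - a * (1 - (x + y))) := mul_pos (by linarith) h3
  linarith

theorem mono_aux' (a : ℝ) (ha : |a| ≤ 1 / 2) (x y : ℝ) (hx0 : 0 ≤ x) (hxy : x ≤ y) (hy1 : y ≤ 1) :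
    x - a * (x * (1 - x)) ≤ y - a * (y * (1 - y)) := by
  rcases hxy.eq_or_lt with h | h
  · rw [h]
  · exact (mono_aux a ha x y hx0 h hy1).le

theorem cut_gt (G : SimpleGraph ℕ) (s : ℕ → ℝ) (t : ℝ) (hs : Sgn G s) (ht0 : 0 ≤ t)
    (ht : t ≤ 1 / 2) (v : ℕ) (b : ℕ → ℝ) (x : ℝ) (hx0 : 0 ≤ x) (hx1 : x ≤ 1) (u : ℕ)
    (hu0 : 0 ≤ b u) (hu1 : b u ≤ 1) :
    cut G v (1 - (x - s v * t * (x * (1 - x)))) (gt s t b) u = gt s t (cut G v (1 - x) b) u := by
  by_cases hadj : G.Adj v u
  · have hsu : s v = - s u := hs.alt v u hadj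
    have hsa : |s u * t| ≤ 1 / 2 := by
      rcases hs.pm u with h | h <;> rw [h]
      · rw [one_mul, abs_of_nonneg ht0]; exact ht
      · rw [neg_one_mul, abs_neg, abs_of_nonneg ht0]; exact ht
    have e1 : 1 - (x - s v * t * (x * (1 - x))) = (1 - x) - s u * t * ((1 - x) * (1 - (1 - x))) := by
      rw [hsu]; ring
    simp only [cut, gt, hadj, if_true]
    rw [e1]
    rcases le_total (b u) (1 - x) with h | h
    · rw [min_eq_left h, min_eq_left]
      exact mono_aux' (s u * t) hsa (b u) (1 - x) hu0 h (by linarith)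
    · rw [min_eq_right h, min_eq_right]
      exact mono_aux' (s u * t) hsa (1 - x) (b u) (by linarith) h hu1
  · simp only [cut, gt, hadj, if_false]

theorem trc : TrcStmt := by
  intro G s l t hs ht0 ht hl0 hl1 v L b hb
  have hv := hb v (by simp)
  have hbL : ∀ u ∈ L, 0 ≤ b u ∧ b u ≤ 1 := fun u hu => hb u (by simp [hu])
  have hsa : |s v * t| ≤ 1 / 2 := by
    rcases hs.pm v with h | h <;> rw [h]
    · rw [one_mul, abs_of_nonneg ht0]; exact ht
    · rw [neg_one_mul, abs_neg, abs_of_nonneg ht0]; exact ht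
  set g : ℝ → ℝ := fun x => x - s v * t * (x * (1 - x)) with hg
  have hg0 : g 0 = 0 := by simp [hg]
  have hgb : gt s t b v = g (b v) := rfl
  have hgmono : ∀ x y, 0 ≤ x → x < y → y ≤ 1 → g x < g y := fun x y h1 h2 h3 =>
    mono_aux (s v * t) hsa x y h1 h2 h3
  have hgmono' : ∀ x y, 0 ≤ x → x ≤ y → y ≤ 1 → g x ≤ g y := fun x y h1 h2 h3 =>
    mono_aux' (s v * t) hsa x y h1 h2 h3
  have hgcont : Continuous g := by
    simp only [hg]
    fun_prop
  have himg : g '' Set.Ioc 0 (b v) = Set.Ioc 0 (g (b v)) := by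
    apply Set.Subset.antisymm
    · rintro _ ⟨x, ⟨hx0, hx1⟩, rfl⟩
      refine ⟨?_, hgmono' x (b v) hx0.le hx1 hv.2⟩
      have := hgmono 0 x le_rfl hx0 (hx1.trans hv.2)
      rwa [hg0] at this
    · have := intermediate_value_Ioc hv.1 (hgcont.continuousOn (s := Set.Icc 0 (b v)))
      rwa [hg0] at this
  have hderiv : ∀ x, HasDerivAt g (1 - s v * t * (1 - 2 * x)) x := by
    intro x
    have h1 : HasDerivAt (fun x : ℝ => x * (1 - x)) (1 * (1 - x) + x * (0 - 1)) x :=
      (hasDerivAt_id x).mul ((hasDerivAt_const x (1 : ℝ)).sub (hasDerivAt_id x))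
    have h2 := (hasDerivAt_id x).sub (h1.const_mul (s v * t))
    have h3 : (1 : ℝ) - s v * t * (1 * (1 - x) + x * (0 - 1)) = 1 - s v * t * (1 - 2 * x) := by ring
    rw [h3] at h2
    exact h2
  have hinj : Set.InjOn g (Set.Ioc 0 (b v)) := by
    intro x hx y hy hxy
    rcases lt_trichotomy x y with h | h | h
    · exact absurd hxy (hgmono x y hx.1.le h (hy.2.trans hv.2)).ne
    · exact h
    · exact absurd hxy (hgmono y x hy.1.le h (hx.2.trans hv.2)).ne'
  have hgv0 : 0 ≤ g (b v) := by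
    have := hgmono' 0 (b v) le_rfl hv.1 hv.2
    rwa [hg0] at this
  have hZ : ZR G l (v :: L) (gt s t b) =
      ∫ z in (0 : ℝ)..(g (b v)), psiR l z * ZR G l L (cut G v (1 - z) (gt s t b)) := rfl
  rw [hZ, intervalIntegral.integral_of_le hgv0, intervalIntegral.integral_of_le hv.1, ← himg,
    integral_image_eq_integral_abs_deriv_smul measurableSet_Ioc
      (fun x _ => (hderiv x).hasDerivWithinAt) hinj]
  refine setIntegral_congr_fun measurableSet_Ioc ?_
  intro x hx
  have hx1 : x ≤ 1 := hx.2.trans hv.2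
  have hpos : 0 < 1 - s v * t * (1 - 2 * x) := by
    have h4 : |1 - 2 * x| ≤ 1 := by
      rw [abs_le]
      constructor <;> linarith [hx.1]
    have h5 : |s v * t * (1 - 2 * x)| ≤ 1 / 2 := by
      rw [abs_mul]
      calc |s v * t| * |1 - 2 * x| ≤ (1 / 2) * 1 :=
            mul_le_mul hsa h4 (abs_nonneg _) (by norm_num)
        _ = 1 / 2 := by norm_num
    have := (abs_le.mp h5).2
    linarith
  have hz : ZR G l L (cut G v (1 - g x) (gt s t b)) = ZR G l L (gt s t (cut G v (1 - x) b)) :=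
    zr_congr G l L _ _ fun u hu =>
      cut_gt G s t hs ht0 ht v b x hx.1.le hx1 u (hbL u hu).1 (hbL u hu).2
  change |1 - s v * t * (1 - 2 * x)| • (psiR l (g x) * ZR G l L (cut G v (1 - g x) (gt s t b))) = _
  rw [hz, abs_of_pos hpos, smul_eq_mul]
  simp only [hg]
  ring

end Pool.Agent.Helper50.BO
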